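import Mathlib
import Pool.Agent.H13.ParSymm

open MvPolynomial

namespace Pool.Agent.Results.MP_34e55c_ag.Symmetric

/-- The ideal `J` of `k[x₁,x₂,x₃]` is preserved by an affine involution of affine three-space whose
linear part has determinant `-1`: there is a `k`-algebra endomorphism `g` with
`g x_i = ∑ j, A i j x_j + b i`, `det A = -1`, `g ∘ g = id` and `g J ⊆ J`. -/
def ReversingSymmetric {k : Type*} [Field k] (J : Ideal (MvPolynomial (Fin 3) k)) : Prop :=
  ∃ (g : MvPolynomial (Fin 3) k →ₐ[k] MvPolynomial (Fin 3) k)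
    (A : Matrix (Fin 3) (Fin 3) k) (b : Fin 3 → k),
    (∀ i, g (X i) = ∑ j, C (A i j) * X j + C (b i)) ∧ A.det = -1 ∧
    (∀ p, g (g p) = p) ∧ ∀ p ∈ J, g p ∈ J

/-- If `I` is a finite intersection of pairwise coprime ideals of finite colength, each of which
is preserved by an affine involution with linear part of determinant `-1`, then
`dim Hom_S(I, S/I) ≡ dim S/I (mod 2)`. -/
theorem result {k : Type*} [Field k] (h2 : (2 : k) ≠ 0) {ι : Type*} [Finite ι]
    (J : ι → Ideal (MvPolynomial (Fin 3) k))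
    (hfin : ∀ i, Module.Finite k (MvPolynomial (Fin 3) k ⧸ J i))
    (hcop : Pairwise fun i j => IsCoprime (J i) (J j))
    (hsym : ∀ i, ReversingSymmetric (J i))
    (I : Ideal (MvPolynomial (Fin 3) k)) (hI : I = ⨅ i, J i) :
    Module.Finite k (MvPolynomial (Fin 3) k ⧸ I) ∧
    Module.Finite k (I →ₗ[MvPolynomial (Fin 3) k] MvPolynomial (Fin 3) k ⧸ I) ∧
    Module.finrank k (I →ₗ[MvPolynomial (Fin 3) k] MvPolynomial (Fin 3) k ⧸ I)
      ≡ Module.finrank k (MvPolynomial (Fin 3) k ⧸ I) [MOD 2] := by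
  obtain ⟨inst⟩ := nonempty_fintype ι
  have hgood := Pool.Agent.H13.Par.good_iInf J Finset.univ
    (fun i _ j _ hij => hcop hij)
    (fun i _ => by
      have := hfin i
      exact ⟨hfin i, Pool.Agent.H13.Par.parity_of_symmetric h2 (J i) (hsym i)⟩)
  have h1 : (⨅ i ∈ (Finset.univ : Finset ι), J i) = I := by
    rw [hI]
    simp
  rw [h1] at hgood
  obtain ⟨h3, h4⟩ := hgood
  exact ⟨h3, Pool.Agent.H13.Par.finite_hom I, h4⟩

end Pool.Agent.Results.MP_34e55c_ag.Symmetric
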